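import Pool.Agent.TH997.US.Stm

/-!
# Universal Skolem sets of density one: completeness of the coded certificates
-/

set_option autoImplicit false

namespace Pool.Agent.Helper10K1.US

open Polynomial Finset Pool.Agent.H692R2.USS Pool.Agent.TH997.US
open scoped Classical

theorem ez_iff (x y : Z) : ez x y ↔ iv x = iv y := by
  unfold ez iv
  omega

theorem lez_iff (x : Z) (k : ℕ) : lez x k ↔ |iv x| ≤ k := by
  unfold lez iv
  rw [abs_le]
  omega

theorem ne_iff (x : Z) : x.1 ≠ x.2 ↔ iv x ≠ 0 := by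
  unfold iv
  omega

theorem not_or_iff (x : Z) (N : ℕ) : ¬ (x.2 + N ≤ x.1 ∨ x.1 + N ≤ x.2) ↔ |iv x| < N := by
  unfold iv
  rw [abs_lt]
  omega

/-- the list of codes of the values `f 0, ..., f (n - 1)` -/
def cl (n : ℕ) (f : ℕ → ℤ) : List Z := (List.range n).map fun i => zc (f i)

theorem cl_length (n : ℕ) (f : ℕ → ℤ) : (cl n f).length = n := by simp [cl]

theorem cl_getD {n : ℕ} {f : ℕ → ℤ} {i : ℕ} (h : i < n) : (cl n f).getD i (0, 0) = zc (f i) := by
  unfold cl
  rw [List.getD_eq_getElem?_getD, List.getElem?_map, List.getElem?_range h]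
  rfl

theorem cl_getD_ge {n : ℕ} {f : ℕ → ℤ} {i : ℕ} (h : n ≤ i) : (cl n f).getD i (0, 0) = (0, 0) := by
  rw [List.getD_eq_getElem?_getD, List.getElem?_eq_none (by rw [cl_length]; exact h)]
  rfl

/-- the code of a polynomial -/
noncomputable def pl (f : ℤ[X]) : List Z := cl (f.natDegree + 1) fun i => f.coeff i

theorem iv_lc_pl (f : ℤ[X]) (i : ℕ) : iv (lc (pl f) i) = f.coeff i := by
  unfold lc pl
  rcases lt_or_ge i (f.natDegree + 1) with h | h
  · rw [cl_getD h, iv_zc]
  · rw [cl_getD_ge h, iv_zero, coeff_eq_zero_of_natDegree_lt (by omega)]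

/-- the code of the lower coefficients of a monic polynomial -/
noncomputable def gl (g : ℤ[X]) : List Z := cl g.natDegree fun i => g.coeff i

theorem gl_length (g : ℤ[X]) : (gl g).length = g.natDegree := cl_length _ _

theorem iv_gc_gl {g : ℤ[X]} (hg : g.Monic) (i : ℕ) : iv (gc (gl g) i) = g.coeff i := by
  unfold gc
  rw [gl_length]
  rcases lt_trichotomy i g.natDegree with h | h | h
  · rw [if_pos h]
    unfold gl
    rw [cl_getD h, iv_zc]
  · rw [if_neg (by omega), if_pos h, h, hg.coeff_natDegree]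
    rfl
  · rw [if_neg (by omega), if_neg (by omega), coeff_eq_zero_of_natDegree_lt h]
    rfl

theorem PG_gl {g : ℤ[X]} (hg : g.Monic) : PG (gl g) = g := by
  ext i
  rw [PG_coeff, gl_length]
  rcases lt_trichotomy i g.natDegree with h | h | h
  · rw [if_pos h]
    unfold gl
    rw [cl_getD h, iv_zc]
  · rw [if_neg (by omega), if_pos h, h, hg.coeff_natDegree]
  · rw [if_neg (by omega), if_neg (by omega), coeff_eq_zero_of_natDegree_lt h]

theorem run_gl {g : ℤ[X]} (hg : g.Monic) (hd : 1 ≤ g.natDegree) {u : ℕ → ℤ} (hu : Ann g u) (n : ℕ) :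
    iv (run (gl g) (cl g.natDegree u) n) = u n := by
  refine run_eq (by rw [cl_length]; exact hd) (by rw [cl_length, gl_length])
    (by rw [PG_gl hg]; exact hu) (fun i hi => ?_) n
  rw [cl_length] at hi
  rw [cl_getD hi, iv_zc]

theorem bez_gl {g s t : ℤ[X]} {rr : ℤ} (hg : g.Monic) (h : s * g + t * derivative g = C rr) (i : ℕ) :
    BezAt (gl g) (pl s) (pl t) (zc rr) i := by
  unfold BezAt
  rw [ez_iff, iv_za, iv_zsum, iv_zsum]
  have h1 := congrArg (fun f : ℤ[X] => f.coeff i) h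
  simp only [coeff_add, coeff_mul, coeff_C] at h1
  rw [Finset.Nat.sum_antidiagonal_eq_sum_range_succ (fun a b => s.coeff a * g.coeff b),
    Finset.Nat.sum_antidiagonal_eq_sum_range_succ
      (fun a b => t.coeff a * (derivative g).coeff b)] at h1
  have h2 : iv (if i = 0 then zc rr else (0, 0)) = if i = 0 then rr else 0 := by
    split_ifs
    · exact iv_zc rr
    · rfl
  rw [h2, ← h1]
  congr 1
  · refine Finset.sum_congr rfl fun a _ => ?_
    rw [iv_zm, iv_lc_pl, iv_gc_gl hg]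
  · refine Finset.sum_congr rfl fun a _ => ?_
    rw [iv_zm, iv_zm, iv_lc_pl, iv_gc_gl hg, iv_nat, coeff_derivative]
    push_cast
    ring

theorem per_gl {g q w : ℤ[X]} {p0 T : ℕ} (hg : g.Monic) (h : X ^ T - 1 = g * q + C (p0 : ℤ) * w)
    (i : ℕ) : PerAt (gl g) (pl q) (pl w) p0 T i := by
  unfold PerAt
  rw [ez_iff, iv_za, iv_za, iv_zsum, iv_zm, iv_nat, iv_lc_pl]
  have h1 := congrArg (fun f : ℤ[X] => f.coeff i) h
  simp only [coeff_add, coeff_sub, coeff_mul g q, coeff_C_mul, coeff_X_pow, coeff_one] at h1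
  rw [Finset.Nat.sum_antidiagonal_eq_sum_range_succ (fun a b => g.coeff a * q.coeff b)] at h1
  have h2 : iv (if i = T then ((1, 0) : ℕ × ℕ) else (0, 0)) = if i = T then 1 else 0 := by
    split_ifs <;> rfl
  have h3 : iv (if i = 0 then ((1, 0) : ℕ × ℕ) else (0, 0)) = if i = 0 then 1 else 0 := by
    split_ifs <;> rfl
  have h4 : ∑ a ∈ range (i + 1), iv (zm (gc (gl g) a) (lc (pl q) (i - a))) =
      ∑ k ∈ range i.succ, g.coeff k * q.coeff (i - k) := by
    refine Finset.sum_congr rfl fun a _ => ?_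
    rw [iv_zm, iv_gc_gl hg, iv_lc_pl]
  rw [h2, h3, h4]
  linarith

/-- **F2.** -/
theorem t_F2 : F2 := by
  intro p k g s t q w rr m D p0 T v hlen hlen1 hcd hst
  -- the degree is positive
  have hdeg : 1 ≤ g.natDegree := by
    by_contra hcon
    have h0 : g.natDegree = 0 := by omega
    have h1 : g = 1 := Polynomial.eq_one_of_monic_natDegree_zero hcd.monic h0
    obtain ⟨j, hj, l, hne, -⟩ := hst 0 hcd.T1
    have h2 := hcd.ann j hj
    rw [h1] at h2
    unfold Ann at h2
    rw [map_one, Module.End.one_apply] at h2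
    exact hne (by rw [h2]; rfl)
  obtain ⟨Vb, hVb⟩ : ∃ Vb : ℕ, Vb = ∑ j ∈ range m, ∑ i ∈ range g.natDegree, (v j i).natAbs :=
    ⟨_, rfl⟩
  have hVb' : ∀ j < m, ∀ i < g.natDegree, (v j i).natAbs ≤ Vb := by
    intro j hj i hi
    rw [hVb]
    calc (v j i).natAbs ≤ ∑ i ∈ range g.natDegree, (v j i).natAbs :=
          Finset.single_le_sum (f := fun i => (v j i).natAbs) (fun _ _ => Nat.zero_le _)
            (Finset.mem_range.2 hi)
      _ ≤ _ := Finset.single_le_sum (f := fun j => ∑ i ∈ range g.natDegree, (v j i).natAbs)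
            (fun _ _ => Nat.zero_le _) (Finset.mem_range.2 hj)
  obtain ⟨k', hk'⟩ : ∃ k' : ℕ, k' = k + 5 + m * m.factorial * Vb := ⟨_, rfl⟩
  have hkk : k ≤ k' := by rw [hk']; omega
  have hkz : (k : ℤ) ≤ k' := by exact_mod_cast hkk
  -- the bound of the places
  choose! jj hjj ll hll1 hll2 using hst
  obtain ⟨Bd, hBd⟩ : ∃ Bd : ℕ, Bd = (∑ r ∈ range T, ll r) + 1 := ⟨_, rfl⟩
  have hV : ∀ j < m, ((List.range m).map fun j => cl g.natDegree (v j)).getD j [] =
      cl g.natDegree (v j) := by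
    intro j hj
    rw [List.getD_eq_getElem?_getD, List.getElem?_map, List.getElem?_range hj]
    rfl
  refine ⟨k', Vb, Bd, gl g, pl s, pl t, pl q, pl w, zc rr,
    (List.range m).map fun j => cl g.natDegree (v j), ?_⟩
  unfold Chk
  refine ⟨by omega, by rw [gl_length]; exact hdeg, by rw [gl_length]; exact hcd.deg.trans hkk, ?_, ?_,
    fun i _ => bez_gl hcd.monic hcd.bez i, ?_, ?_, hcd.m1, hcd.mle.trans hkk, hcd.D1, ?_, ?_, ?_,
    hcd.p0p, hcd.p03, hcd.T1, hcd.Tk.trans hkk, fun i _ => per_gl hcd.monic hcd.per i, ?_⟩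
  · intro i hi
    rw [gl_length] at hi
    rw [lez_iff]
    have h1 : lc (gl g) i = zc (g.coeff i) := cl_getD hi
    rw [h1, iv_zc]
    exact (hcd.coeff i).trans hkz
  · rw [ne_iff]
    have h1 : lc (gl g) 0 = zc (g.coeff 0) := cl_getD (by omega)
    rw [h1, iv_zc]
    exact hcd.coeff0
  · rw [ne_iff, iv_zc]
    exact hcd.rr0
  · rw [lez_iff, iv_zc]
    exact hcd.rrk.trans hkz
  · intro j hj
    rw [hV j hj]
    refine ⟨by rw [cl_length, gl_length], fun i hi => ?_⟩
    rw [gl_length] at hi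
    rw [lez_iff]
    have h1 : lc (cl g.natDegree (v j)) i = zc (v j i) := cl_getD hi
    rw [h1, iv_zc]
    have h2 := hVb' j hj i hi
    rw [Int.abs_eq_natAbs]
    exact_mod_cast h2
  · calc m * m.factorial * Vb < 2 ^ (m * m.factorial * Vb) := Nat.lt_two_pow_self
      _ ≤ 2 ^ k' := Nat.pow_le_pow_right (by norm_num) (by rw [hk']; omega)
  · intro n _
    unfold DecAt
    rw [ez_iff, iv_zm, iv_nat, iv_zsum]
    have h1 := hcd.dec n
    unfold Pool.Agent.TH997.US.sq at h1
    rw [h1]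
    refine Finset.sum_congr rfl fun j hj => ?_
    have hj' := Finset.mem_range.1 hj
    rw [iv_zm, iv_nat, hV j hj', run_gl hcd.monic hdeg (hcd.ann j hj')]
  · intro r hr
    refine ⟨jj r, hjj r hr, ll r, ?_, ?_⟩
    · rw [hBd]
      have := Finset.single_le_sum (f := fun r => ll r) (fun _ _ => Nat.zero_le _)
        (Finset.mem_range.2 hr)
      omega
    · rw [hV _ (hjj r hr)]
      have h1 := run_gl hcd.monic hdeg (hcd.ann _ (hjj r hr)) (r + T * ll r)
      refine ⟨?_, ?_⟩
      · rw [ne_iff, h1]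
        exact hll1 r hr
      · rw [not_or_iff, h1]
        refine (hll2 r hr).trans_le ?_
        have h3 : (3 : ℤ) ^ (k / 2) ≤ 3 ^ (k' / 2) :=
          pow_le_pow_right₀ (by norm_num) (Nat.div_le_div_right hkk)
        push_cast
        exact h3

end Pool.Agent.Helper10K1.US
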